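import Pool.Agent.helper60.DB.SpecF

/-!
# Row bf:BD (MP_fb2c2a_nt): identities for `s = √2`, `t = √(-3)`
-/

set_option autoImplicit false

namespace Pool.Agent.helper60.DB

open Polynomial

/-- **BD**: identities; the isogeny of degree 3. -/
theorem BD : BD_stmt := by
  intro R _ s t hs ht
  have hS : (C s : R[X]) ^ 2 = 2 := by rw [← C_pow, hs]; exact map_ofNat C 2
  have hT : (C t : R[X]) ^ 2 = -3 := by rw [← C_pow, ht, C_neg]; exact congrArg _ (map_ofNat C 3)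
  have h2 : (C 2 : R[X]) = 2 := map_ofNat C 2
  have h3 : (C 3 : R[X]) = 3 := map_ofNat C 3
  have h6 : (C 6 : R[X]) = 6 := map_ofNat C 6
  have h12 : (C 12 : R[X]) = 12 := map_ofNat C 12
  refine ⟨?_, ?_, ?_, ?_, ⟨?_, ?_, ?_, ?_, ?_⟩⟩
  · linear_combination (-12 * s - 36) * hs
  · linear_combination (6 * s ^ 2 + 48 * s + 12) * hs
  · linear_combination (12 * s - 36) * hs
  · linear_combination (6 * s ^ 2 - 48 * s + 12) * hs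
  · simp
  · simp
  · simp [coeff_X_pow]
  · simp only [C_mul, C_add, C_1, h2, h3, h6, derivative_add, derivative_sub, derivative_mul, derivative_C,
      derivative_X, derivative_one, derivative_ofNat]
    linear_combination (3 * (C t) * X ^ 2 + (-3) * (C t) * X) * hS
  · simp only [C_mul, C_add, C_sub, C_1, h2, h3, h6, h12]
    linear_combination (108 * (C s) ^ 3 * (C t) ^ 2 * X ^ 5 + (-216) * (C s) ^ 3 * (C t) ^ 2 * X ^ 4 + 108 * (C s) ^ 3 * (C t) ^ 2 * X ^ 3 +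
      (-6) * (C s) ^ 2 * (C t) ^ 4 * X ^ 6 + 24 * (C s) ^ 2 * (C t) ^ 4 * X ^ 5 + (-36) * (C s) ^ 2 * (C t) ^ 4 * X ^ 4 +
      24 * (C s) ^ 2 * (C t) ^ 4 * X ^ 3 + (-6) * (C s) ^ 2 * (C t) ^ 4 * X ^ 2 + 324 * (C s) ^ 2 * (C t) ^ 2 * X ^ 5 +
      (-936) * (C s) ^ 2 * (C t) ^ 2 * X ^ 4 + 684 * (C s) ^ 2 * (C t) ^ 2 * X ^ 3 + (-72) * (C s) ^ 2 * (C t) ^ 2 * X ^ 2 +
      (-81) * (C s) ^ 2 * X ^ 4 + 24 * (C s) * (C t) ^ 4 * X ^ 5 + (-72) * (C s) * (C t) ^ 4 * X ^ 4 + 72 * (C s) * (C t) ^ 4 * X ^ 3 +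
      (-24) * (C s) * (C t) ^ 4 * X ^ 2 + 216 * (C s) * (C t) ^ 2 * X ^ 5 + (-1152) * (C s) * (C t) ^ 2 * X ^ 4 +
      1272 * (C s) * (C t) ^ 2 * X ^ 3 + (-240) * (C s) * (C t) ^ 2 * X ^ 2 + 12 * (C s) * (C t) ^ 2 * X + (-648) * (C s) * X ^ 4 +
      540 * (C s) * X ^ 3 + (-12) * (C t) ^ 4 * X ^ 6 + 48 * (C t) ^ 4 * X ^ 5 + (-108) * (C t) ^ 4 * X ^ 4 +
      120 * (C t) ^ 4 * X ^ 3 + (-48) * (C t) ^ 4 * X ^ 2 + 216 * (C t) ^ 2 * X ^ 5 + (-864) * (C t) ^ 2 * X ^ 4 +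
      1104 * (C t) ^ 2 * X ^ 3 + (-216) * (C t) ^ 2 * X ^ 2 + 12 * (C t) ^ 2 * X + (-1026) * X ^ 4 + 1080 * X ^ 3 +
      126 * X ^ 2) * hS +
      (48 * (C s) * (C t) ^ 2 * X ^ 5 + (-144) * (C s) * (C t) ^ 2 * X ^ 4 + 168 * (C s) * (C t) ^ 2 * X ^ 3 +
      (-72) * (C s) * (C t) ^ 2 * X ^ 2 + 288 * (C s) * X ^ 5 + (-1008) * (C s) * X ^ 4 + 888 * (C s) * X ^ 3 +
      (-24) * (C s) * X ^ 2 + 12 * (C s) * X + (-24) * (C t) ^ 2 * X ^ 6 + 96 * (C t) ^ 2 * X ^ 5 + (-216) * (C t) ^ 2 * X ^ 4 +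
      240 * (C t) ^ 2 * X ^ 3 + (-102) * (C t) ^ 2 * X ^ 2 + 72 * X ^ 6 + 144 * X ^ 5 + (-1080) * X ^ 4 +
      1056 * X ^ 3 + 18 * X ^ 2 + 12 * X) * hT

end Pool.Agent.helper60.DB
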