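import Pool.Agent.helper60.DB.SpecI

set_option autoImplicit false

namespace Pool.Agent.helper60.DB

open Polynomial Finset Pool.Agent.helper60.DK

private theorem CU_lam {R : Type} [CommRing R] (f : R[X]) : Lam 0 f =
    th (th (th f)) + 8 * (X ^ 2 - 1) * ww * th f + 24 * X * (X ^ 2 - 3) * (X ^ 2 - 1) * ww * f := by
  unfold Lam A1 A2 A3
  simp only [mul_zero, C_0, zero_mul, add_zero, ne_eq, OfNat.ofNat_ne_zero, not_false_eq_true, zero_pow]

private theorem CU_th {R : Type} [CommRing R] (c : R) (v : R[X]) (hv : ww = (X - C c) * v) (k : ℕ)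
    (g : R[X]) : th ((X - C c) ^ (k + 1) * g) =
      (X - C c) ^ (k + 1) * (C (((k + 1 : ℕ) : R)) * v * g + ww * derivative g) := by
  unfold th
  rw [derivative_mul, derivative_X_sub_C_pow, hv, Nat.add_sub_cancel]
  ring

private theorem CU_cusp (p : ℕ) [Fact p.Prime] (c : ZMod p) (v : (ZMod p)[X])
    (hv : ww = (X - C c) * v) (hvc : v.eval c ≠ 0) (f : (ZMod p)[X]) (hf0 : f ≠ 0)
    (hL : Lam 0 f = 0) (hfc : f.eval c = 0) : (X - C c) ^ p ∣ f := by
  obtain ⟨g, hg, hgd⟩ := exists_eq_pow_rootMultiplicity_mul_and_not_dvd f hf0 c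
  obtain ⟨m, hm⟩ : ∃ m, m = rootMultiplicity c f := ⟨_, rfl⟩
  rw [← hm] at hg
  by_contra hnd
  have hmp : m < p := by
    by_contra h
    push Not at h
    exact hnd (hg ▸ (pow_dvd_pow _ h).mul_right g)
  have hgc : g.eval c ≠ 0 := fun h => hgd (dvd_iff_isRoot.2 h)
  obtain ⟨k, hk⟩ : ∃ k, m = k + 1 := by
    cases m with
    | zero =>
      exfalso
      rw [pow_zero, one_mul] at hg
      rw [hg] at hfc
      exact hgc hfc
    | succ k => exact ⟨k, rfl⟩
  rw [hk] at hg
  have hm0 : (((k + 1 : ℕ) : ZMod p)) ≠ 0 := by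
    intro h
    rw [ZMod.natCast_eq_zero_iff] at h
    have := Nat.le_of_dvd (by omega) h
    omega
  have hwc : (ww : (ZMod p)[X]).eval c = 0 := by
    rw [hv, eval_mul, eval_sub, eval_X, eval_C, sub_self, zero_mul]
  have hG : (X - C c) ^ (k + 1) * ((C (((k + 1 : ℕ) : ZMod p)) * v *
      (C (((k + 1 : ℕ) : ZMod p)) * v * (C (((k + 1 : ℕ) : ZMod p)) * v * g + ww * derivative g) +
        ww * derivative (C (((k + 1 : ℕ) : ZMod p)) * v * g + ww * derivative g)) +
      ww * derivative (C (((k + 1 : ℕ) : ZMod p)) * v *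
        (C (((k + 1 : ℕ) : ZMod p)) * v * g + ww * derivative g) +
        ww * derivative (C (((k + 1 : ℕ) : ZMod p)) * v * g + ww * derivative g))) +
      8 * (X ^ 2 - 1) * ww * (C (((k + 1 : ℕ) : ZMod p)) * v * g + ww * derivative g) +
      24 * X * (X ^ 2 - 3) * (X ^ 2 - 1) * ww * g) = 0 := by
    rw [← hL, CU_lam, hg, CU_th c v hv, CU_th c v hv, CU_th c v hv]
    ring
  have hne : (X - C c) ^ (k + 1) ≠ 0 := pow_ne_zero _ (X_sub_C_ne_zero c)
  have h2 := congrArg (eval c) ((mul_eq_zero.1 hG).resolve_left hne)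
  simp only [eval_add, eval_mul, hwc, eval_C, mul_zero, zero_mul, add_zero, eval_zero] at h2
  have h3 : ((k + 1 : ℕ) : ZMod p) * v.eval c ≠ 0 := mul_ne_zero hm0 hvc
  exact mul_ne_zero h3 (mul_ne_zero h3 (mul_ne_zero h3 hgc)) h2

theorem CU : CU_stmt := by
  intro p _ hp f hdeg hL h1 hm1 h2 hm2
  by_contra hf0
  have hn : ∀ n : ℕ, 0 < n → n < 5 → ((n : ℕ) : ZMod p) ≠ 0 := by
    intro n hn hn5 h
    rw [ZMod.natCast_eq_zero_iff] at h
    have := Nat.le_of_dvd hn h
    omega
  have t2 : (2 : ZMod p) ≠ 0 := by exact_mod_cast hn 2 (by norm_num) (by norm_num)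
  have t3 : (3 : ZMod p) ≠ 0 := by exact_mod_cast hn 3 (by norm_num) (by norm_num)
  have t6 : (6 : ZMod p) ≠ 0 := by
    have : (6 : ZMod p) = 2 * 3 := by norm_num
    rw [this]; exact mul_ne_zero t2 t3
  have t12 : (12 : ZMod p) ≠ 0 := by
    have : (12 : ZMod p) = 2 * (2 * 3) := by norm_num
    rw [this]; exact mul_ne_zero t2 (mul_ne_zero t2 t3)
  have d1 := CU_cusp p 1 ((X + 1) * (X ^ 2 - 4)) (by unfold ww; rw [C_1]; ring)
    (by
      simp only [eval_mul, eval_add, eval_sub, eval_X, eval_one, eval_pow, eval_ofNat]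
      have : ((1 : ZMod p) + 1) * (1 ^ 2 - 4) = -6 := by ring
      rw [this]; exact neg_ne_zero.2 t6) f hf0 hL h1
  have d2 := CU_cusp p (-1) ((X - 1) * (X ^ 2 - 4)) (by unfold ww; rw [C_neg, C_1]; ring)
    (by
      simp only [eval_mul, eval_sub, eval_X, eval_one, eval_pow, eval_ofNat]
      have : ((-1 : ZMod p) - 1) * ((-1) ^ 2 - 4) = 6 := by ring
      rw [this]; exact t6) f hf0 hL hm1
  have d3 := CU_cusp p 2 ((X ^ 2 - 1) * (X + 2)) (by
      unfold ww
      have : (C (2 : ZMod p) : (ZMod p)[X]) = 2 := map_ofNat C 2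
      rw [this]; ring)
    (by
      simp only [eval_mul, eval_add, eval_sub, eval_X, eval_one, eval_pow, eval_ofNat]
      have : ((2 : ZMod p) ^ 2 - 1) * (2 + 2) = 12 := by ring
      rw [this]; exact t12) f hf0 hL h2
  have d4 := CU_cusp p (-2) ((X ^ 2 - 1) * (X - 2)) (by
      unfold ww
      have : (C (-2 : ZMod p) : (ZMod p)[X]) = -2 := by rw [C_neg, map_ofNat C 2]
      rw [this]; ring)
    (by
      simp only [eval_mul, eval_sub, eval_X, eval_one, eval_pow, eval_ofNat]
      have : ((-2 : ZMod p) ^ 2 - 1) * (-2 - 2) = -12 := by ring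
      rw [this]; exact neg_ne_zero.2 t12) f hf0 hL hm2
  have cop : ∀ a b : ZMod p, a ≠ b → IsCoprime ((X - C a) ^ p) ((X - C b) ^ p) := by
    intro a b hab
    exact (isCoprime_X_sub_C_of_isUnit_sub (sub_ne_zero.2 hab).isUnit).pow
  have n12 : (1 : ZMod p) ≠ -1 := by
    intro h
    apply t2
    linear_combination h
  have n13 : (1 : ZMod p) ≠ 2 := by
    intro h
    have : (1 : ZMod p) = 0 := by linear_combination -h
    exact one_ne_zero this
  have n14 : (1 : ZMod p) ≠ -2 := by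
    intro h
    apply t3
    linear_combination h
  have n23 : (-1 : ZMod p) ≠ 2 := by
    intro h
    apply t3
    linear_combination -h
  have n24 : (-1 : ZMod p) ≠ -2 := by
    intro h
    have : (1 : ZMod p) = 0 := by linear_combination h
    exact one_ne_zero this
  have n34 : (2 : ZMod p) ≠ -2 := by
    intro h
    have : (2 : ZMod p) * 2 = 0 := by linear_combination h
    exact mul_ne_zero t2 t2 this
  have e1 := (cop _ _ n12).mul_dvd d1 d2
  have e2 := ((cop _ _ n13).mul_left (cop _ _ n23)).mul_dvd e1 d3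
  have e3 := (((cop _ _ n14).mul_left (cop _ _ n24)).mul_left (cop _ _ n34)).mul_dvd e2 d4
  have hle := natDegree_le_of_dvd e3 hf0
  have hmon : ∀ a : ZMod p, ((X - C a) ^ p).Monic := fun a => (monic_X_sub_C a).pow p
  have hnd : ∀ a : ZMod p, ((X - C a) ^ p).natDegree = p := by
    intro a
    rw [natDegree_pow, natDegree_X_sub_C, mul_one]
  rw [(((hmon 1).mul (hmon (-1))).mul (hmon 2)).natDegree_mul (hmon (-2)),
    ((hmon 1).mul (hmon (-1))).natDegree_mul (hmon 2), (hmon 1).natDegree_mul (hmon (-1)),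
    hnd, hnd, hnd, hnd] at hle
  omega

end Pool.Agent.helper60.DB
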